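import Mathlib

/-!
# Uncountably many types give independent formulas
-/

open FirstOrder Cardinal

noncomputable section

set_option autoImplicit false

namespace Pool.Agent.Y9.RZ

variable {L : FirstOrder.Language.{0, 0}} {T : L.Theory} {α : Type}

/-- The formula `φ` belongs to the type `p`. -/
def Mem (φ : L.Formula α) (p : T.CompleteType α) : Prop := Language.Formula.equivSentence φ ∈ p

/-- every type is realised -/
lemma realised (p : T.CompleteType α) : ∃ (N : Type) (_ : L.Structure N) (_ : Nonempty N)
    (_ : N ⊨ T) (v : α → N), ∀ φ : L.Formula α, Mem φ p ↔ φ.Realize v := by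
  obtain ⟨N, hN⟩ := Language.Theory.exists_modelType_is_realized_in T p
  obtain ⟨v, rfl⟩ := hN
  exact ⟨N, inferInstance, inferInstance, inferInstance, v,
    fun φ => Language.Theory.CompleteType.formula_mem_typeOf⟩

lemma mem_inf (φ ψ : L.Formula α) (p : T.CompleteType α) :
    Mem (φ ⊓ ψ) p ↔ Mem φ p ∧ Mem ψ p := by
  obtain ⟨N, _, _, _, v, h⟩ := realised p
  rw [h, h, h]
  exact Language.BoundedFormula.realize_inf

lemma mem_not (φ : L.Formula α) (p : T.CompleteType α) : Mem (∼φ) p ↔ ¬ Mem φ p := by
  obtain ⟨N, _, _, _, v, h⟩ := realised p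
  rw [h, h]
  exact Language.BoundedFormula.realize_not

lemma mem_top (p : T.CompleteType α) : Mem (⊤ : L.Formula α) p := by
  obtain ⟨N, _, _, _, v, h⟩ := realised p
  rw [h]
  exact Language.BoundedFormula.realize_top.2 trivial

lemma type_ext {p q : T.CompleteType α} (h : ∀ φ : L.Formula α, Mem φ p ↔ Mem φ q) : p = q := by
  refine SetLike.ext fun φ => ?_
  have := h (Language.Formula.equivSentence.symm φ)
  unfold Mem at this
  rwa [Equiv.apply_symm_apply] at this

/-- The types which contain `φ`. -/
def Cl (T : L.Theory) (φ : L.Formula α) : Set (T.CompleteType α) := {p | Mem φ p}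

lemma split [Countable (L.Formula α)] (U : Set (T.CompleteType α)) (hU : ¬ U.Countable) :
    ∃ φ : L.Formula α, ¬ (U ∩ Cl T φ).Countable ∧ ¬ (U \ Cl T φ).Countable := by
  classical
  by_contra hc
  push Not at hc
  apply hU
  let small : L.Formula α → Set (T.CompleteType α) := fun φ =>
    if (U ∩ Cl T φ).Countable then U ∩ Cl T φ else U \ Cl T φ
  have hsmall : ∀ φ, (small φ).Countable := by
    intro φ
    by_cases h : (U ∩ Cl T φ).Countable
    · simp only [small, h, if_true]
    · simp only [small, h, if_false]
      exact hc φ h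
  have hsub : U ⊆ {p | ∀ φ : L.Formula α, Mem φ p ↔ ¬ (U ∩ Cl T φ).Countable} ∪ ⋃ φ, small φ := by
    intro p hp
    by_cases h : p ∈ ⋃ φ, small φ
    · exact Or.inr h
    · refine Or.inl fun φ => ?_
      rw [Set.mem_iUnion] at h
      push Not at h
      have h1 := h φ
      by_cases h2 : (U ∩ Cl T φ).Countable
      · simp only [small, h2, if_true] at h1
        exact iff_of_false (fun h3 => h1 ⟨hp, h3⟩) (fun h3 => h3 h2)
      · simp only [small, h2, if_false] at h1
        refine iff_of_true ?_ h2
        by_contra h3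
        exact h1 ⟨hp, h3⟩
  refine Set.Countable.mono hsub (Set.Countable.union ?_ (Set.countable_iUnion hsmall))
  refine Set.Subsingleton.countable ?_
  intro p hp q hq
  exact type_ext fun φ => (hp φ).trans (hq φ).symm

/-- Formulas which split uncountable sets. -/
lemma splitter [Countable (L.Formula α)] (T : L.Theory) : ∃ sp : L.Formula α → L.Formula α,
    ∀ φ, ¬ (Cl T φ).Countable →
      ¬ (Cl T (φ ⊓ sp φ)).Countable ∧ ¬ (Cl T (φ ⊓ ∼(sp φ))).Countable := by
  classical
  have h : ∀ φ : L.Formula α, ∃ ψ : L.Formula α, ¬ (Cl T φ).Countable →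
      ¬ (Cl T (φ ⊓ ψ)).Countable ∧ ¬ (Cl T (φ ⊓ ∼ψ)).Countable := by
    intro φ
    by_cases hφ : (Cl T φ).Countable
    · exact ⟨⊤, fun h => absurd hφ h⟩
    · obtain ⟨ψ, h1, h2⟩ := split (Cl T φ) hφ
      refine ⟨ψ, fun _ => ⟨?_, ?_⟩⟩
      · have e : Cl T (φ ⊓ ψ) = Cl T φ ∩ Cl T ψ := by
          ext p
          exact mem_inf φ ψ p
        rw [e]
        exact h1
      · have e : Cl T (φ ⊓ ∼ψ) = Cl T φ \ Cl T ψ := by
          ext p
          exact (mem_inf φ _ p).trans (and_congr_right fun _ => mem_not ψ p)
        rw [e]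
        exact h2
  choose sp hsp using h
  exact ⟨sp, hsp⟩

/-- The tree of formulas. -/
def Tr (sp : L.Formula α → L.Formula α) : List Bool → L.Formula α
  | [] => ⊤
  | true :: l => Tr sp l ⊓ sp (Tr sp l)
  | false :: l => Tr sp l ⊓ ∼(sp (Tr sp l))

lemma tr_big {sp : L.Formula α → L.Formula α} (hsp : ∀ φ, ¬ (Cl T φ).Countable →
      ¬ (Cl T (φ ⊓ sp φ)).Countable ∧ ¬ (Cl T (φ ⊓ ∼(sp φ))).Countable)
    (hT : ¬ (Set.univ : Set (T.CompleteType α)).Countable) (l : List Bool) :
    ¬ (Cl T (Tr sp l)).Countable := by
  induction l with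
  | nil =>
    have e : Cl T (Tr sp []) = (Set.univ : Set (T.CompleteType α)) := by
      ext p
      exact iff_of_true (mem_top p) trivial
    rw [e]
    exact hT
  | cons b l ih =>
    cases b
    · exact (hsp _ ih).2
    · exact (hsp _ ih).1

section
variable {N : Type} [L.Structure N] {v : α → N} {sp : L.Formula α → L.Formula α}

lemma tr_true (l : List Bool) :
    (Tr sp (true :: l)).Realize v ↔ (Tr sp l).Realize v ∧ (sp (Tr sp l)).Realize v :=
  Language.BoundedFormula.realize_inf

lemma tr_false (l : List Bool) :
    (Tr sp (false :: l)).Realize v ↔ (Tr sp l).Realize v ∧ ¬ (sp (Tr sp l)).Realize v := by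
  refine (Language.BoundedFormula.realize_inf).trans (and_congr_right fun _ => ?_)
  exact Language.BoundedFormula.realize_not

lemma tr_tail (b : Bool) (l : List Bool) (h : (Tr sp (b :: l)).Realize v) :
    (Tr sp l).Realize v := by
  cases b
  · exact ((tr_false l).1 h).1
  · exact ((tr_true l).1 h).1

lemma tr_unique (l l' : List Bool) (hl : l.length = l'.length) (h : (Tr sp l).Realize v)
    (h' : (Tr sp l').Realize v) : l = l' := by
  induction l generalizing l' with
  | nil => exact (List.length_eq_zero_iff.1 hl.symm).symm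
  | cons b l ih =>
    cases l' with
    | nil => simp at hl
    | cons b' l' =>
      have e := ih l' (by simpa using hl) (tr_tail b l h) (tr_tail b' l' h')
      subst e
      cases b <;> cases b'
      · rfl
      · exact absurd ((tr_true l).1 h').2 ((tr_false l).1 h).2
      · exact absurd ((tr_true l).1 h).2 ((tr_false l).1 h').2
      · rfl

end

/-- all lists of length `j` -/
def all : ℕ → List (List Bool)
  | 0 => [([] : List Bool)]
  | j + 1 => (all j).map (List.cons true) ++ (all j).map (List.cons false)

lemma mem_all (j : ℕ) (l : List Bool) : l ∈ all j ↔ l.length = j := by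
  induction j generalizing l with
  | zero => simp [all]
  | succ j ih =>
    simp only [all, List.mem_append, List.mem_map, ih]
    constructor
    · rintro (⟨a, ha, rfl⟩ | ⟨a, ha, rfl⟩) <;> simp [ha]
    · intro h
      cases l with
      | nil => simp at h
      | cons b l =>
        have : l.length = j := by simpa using h
        cases b
        · exact Or.inr ⟨l, this, rfl⟩
        · exact Or.inl ⟨l, this, rfl⟩

/-- The `j`-th bit. -/
def bit (sp : L.Formula α → L.Formula α) (j : ℕ) : L.Formula α :=
  ((all j).map fun l => Tr sp (true :: l)).foldr (· ⊔ ·) ⊥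

lemma realize_bit {N : Type} [L.Structure N] {v : α → N} {sp : L.Formula α → L.Formula α}
    (j : ℕ) : (bit sp j).Realize v ↔ ∃ l : List Bool, l.length = j ∧
      (Tr sp (true :: l)).Realize v := by
  unfold bit
  refine (Language.BoundedFormula.realize_foldr_sup _ _ _).trans ?_
  simp only [List.mem_map, mem_all]
  constructor
  · rintro ⟨φ, ⟨l, hl, rfl⟩, h⟩
    exact ⟨l, hl, h⟩
  · rintro ⟨l, hl, h⟩
    exact ⟨_, ⟨l, hl, rfl⟩, h⟩

/-- the path given by the bits `b` -/
def path (b : ℕ → Bool) : ℕ → List Bool
  | 0 => []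
  | k + 1 => b k :: path b k

lemma path_length (b : ℕ → Bool) (k : ℕ) : (path b k).length = k := by
  induction k with
  | zero => rfl
  | succ k ih => simp [path, ih]

lemma path_bit {N : Type} [L.Structure N] {v : α → N} {sp : L.Formula α → L.Formula α}
    (b : ℕ → Bool) (k : ℕ) (h : (Tr sp (path b k)).Realize v) :
    ∀ j < k, ((bit sp j).Realize v ↔ b j = true) := by
  induction k with
  | zero => intro j hj; omega
  | succ k ih =>
    intro j hj
    rcases Nat.lt_succ_iff_lt_or_eq.1 hj with h1 | rfl
    · exact ih (tr_tail _ _ h) j h1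
    · rw [realize_bit]
      constructor
      · rintro ⟨l, hl, h2⟩
        have e := tr_unique _ _ (by simp [path_length, hl]) h2 h
        exact (List.cons.inj e).1.symm
      · intro hb
        refine ⟨path b j, path_length b j, ?_⟩
        have : path b (j + 1) = true :: path b j := by simp [path, hb]
        rwa [this] at h

/-- If there are uncountably many types then there are formulas such that all finite combinations
of them are realised. -/
theorem independent (M : Type) [L.Structure M] [Nonempty M] {n : ℕ}
    [Countable (L.Formula (Fin n))]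
    (h : ¬ (Set.univ : Set ((L.completeTheory M).CompleteType (Fin n))).Countable) :
    ∃ θ : ℕ → L.Formula (Fin n), ∀ (b : ℕ → Bool) (k : ℕ), ∃ v : Fin n → M,
      ∀ j < k, ((θ j).Realize v ↔ b j = true) := by
  obtain ⟨sp, hsp⟩ := splitter (L := L) (α := Fin n) (L.completeTheory M)
  refine ⟨bit sp, fun b k => ?_⟩
  have h1 := tr_big hsp h (path b k)
  have h2 : (Cl (L.completeTheory M) (Tr sp (path b k))).Nonempty := by
    by_contra h2
    rw [Set.not_nonempty_iff_eq_empty] at h2
    rw [h2] at h1
    exact h1 Set.countable_empty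
  obtain ⟨p, hp⟩ := h2
  obtain ⟨N, iN, iN', hN, v, hv⟩ := realised p
  have h3 : (Tr sp (path b k)).Realize v := (hv _).1 hp
  let χ : L.Sentence := Language.Formula.iExs (Fin n)
    ((Tr sp (path b k)).relabel (Sum.inr : Fin n → Empty ⊕ Fin n))
  have key : ∀ (K : Type) [L.Structure K], K ⊨ χ ↔
      ∃ w : Fin n → K, (Tr sp (path b k)).Realize w := by
    intro K _
    refine (Language.Formula.realize_iExs).trans ?_
    refine exists_congr fun w => ?_
    rw [Language.Formula.realize_relabel]
    rfl
  have h4 : N ⊨ χ := (key N).2 ⟨v, h3⟩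
  have h5 : M ⊨ χ := by
    by_contra h5
    have h6 : (∼χ : L.Sentence) ∈ L.completeTheory M := by
      rw [Language.mem_completeTheory]
      exact (Language.Sentence.realize_not M).2 h5
    have h7 := hN.realize_of_mem _ h6
    exact (Language.Sentence.realize_not N).1 h7 h4
  obtain ⟨w, hw⟩ := (key M).1 h5
  exact ⟨w, path_bit b k hw⟩

end Pool.Agent.Y9.RZ
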