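import Pool.Agent.H568R2.Rand.Sep
import Pool.Agent.Y9.RZ.Tree

/-!
# Separated types over a typical model, from independent formulas
-/

open FirstOrder Cardinal MeasureTheory Filter Topology
open scoped unitInterval FirstOrder

noncomputable section

set_option autoImplicit false

namespace Pool.Agent.Y9.RZ

open Pool.Agent.H568R2.Rand hiding NJ PJ xs Xs ps psi chi fpar fparN AKJ

/-- A formula with constants from `A`, written with finitely many variables and no constants. -/
lemma unfold_formula {L : FirstOrder.Language.{0, 0}} (M : Type) [L.Structure M] (A : Set M)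
    {n : ℕ} (θ : L[[A]].Formula (Fin n)) :
    ∃ (m : ℕ) (φ : L.Formula (Fin m)) (g : Fin m → A ⊕ Fin n), Function.Injective g ∧
      ∀ v : Fin n → M, θ.Realize v ↔
        φ.Realize (fun i => Sum.elim (fun a : A => (a : M)) v (g i)) := by
  classical
  let φ0 : L.Formula (A ⊕ Fin n) := Language.BoundedFormula.constantsVarsEquiv θ
  let e : φ0.freeVarFinset ≃ Fin (Fintype.card φ0.freeVarFinset) := Fintype.equivFin _
  refine ⟨_, φ0.restrictFreeVar e, fun i => (e.symm i : A ⊕ Fin n),
    Subtype.val_injective.comp e.symm.injective, fun v => ?_⟩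
  have h1 : φ0.Realize (Sum.elim (fun a : A => ((L.con a : L[[A]].Constants) : M)) v) ↔
      θ.Realize v := Language.BoundedFormula.realize_constantsVarsEquiv
  have h2 : (fun a : A => ((L.con a : L[[A]].Constants) : M)) = fun a : A => (a : M) := by
    funext a
    exact Language.coe_con L A
  rw [h2] at h1
  refine h1.symm.trans ?_
  refine (Language.BoundedFormula.realize_restrictFreeVar _ ?_).symm
  intro a
  simp

/-- Independent formulas with constants from `A`. -/
structure Dat (L : FirstOrder.Language.{0, 0}) (M : Type) [L.Structure M] (A : Set M) (n : ℕ) where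
  m : ℕ → ℕ
  φ : ∀ j, L.Formula (Fin (m j))
  g : ∀ j, Fin (m j) → A ⊕ Fin n
  inj : ∀ j, Function.Injective (g j)
  F : ∀ k, (Fin k → Bool) → Fin n → M
  hF : ∀ k (c : Fin k → Bool) (j : Fin k),
    (φ j).Realize (fun i => Sum.elim (fun a : A => (a : M)) (F k c) (g j i)) ↔ c j = true

section

variable {L : FirstOrder.Language.{0, 0}} {M : Type} [L.Structure M] {A : Set M} {n : ℕ}
  {J : Type}

variable (L M J) in
/-- the typical model over `2^J` -/
abbrev NJ : PreStr L := typical (L := L) M (coins J)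

variable (L M J) in
/-- the prestructure of random elements -/
abbrev PJ : PreStr L := typicalPre (L := L) M (coins J)

/-- constants -/
def cst (L : FirstOrder.Language.{0, 0}) {M : Type} [L.Structure M] (J : Type) (a : M) :
    (PJ L M J).K := (RV.const a : RV (coins J) M)

/-- the constants as elements of the typical model -/
def aN (L : FirstOrder.Language.{0, 0}) {M : Type} [L.Structure M] (J : Type) (a : M) :
    (NJ L M J).K := qK (PJ L M J) (cst L J a)

/-- coin events -/
def evt (L : FirstOrder.Language.{0, 0}) (M : Type) [L.Structure M] {J : Type} (i : J) :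
    (PJ L M J).B := (RV.comp₁ (fun b : Bool => (b = true : Prop)) (coord i) : RV (coins J) Prop)

/-- the coin events in the typical model -/
def eN (L : FirstOrder.Language.{0, 0}) (M : Type) [L.Structure M] {J : Type} (i : J) :
    (NJ L M J).B := qB (PJ L M J) (evt L M i)

/-- the parameters of sort `K` -/
def AK (L : FirstOrder.Language.{0, 0}) {M : Type} [L.Structure M] (A : Set M) (J : Type) :
    Set (NJ L M J).K := Set.range fun a : A => aN L J (a : M)

/-- the parameters of sort `B` -/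
def AB (L : FirstOrder.Language.{0, 0}) (M : Type) [L.Structure M] (J : Type) :
    Set (NJ L M J).B := Set.range (eN L M (J := J))

/-- the separating formulas -/
def psi (D : Dat L M A n) (j : ℕ) (b : AB L M J) : CFormula L (AK L A J) (AB L M J) n 0 :=
  CFormula.dB (ETerm.ev (D.m j) (D.φ j)
    (fun i => Sum.map (fun a : A => (⟨aN L J (a : M), a, rfl⟩ : AK L A J)) id (D.g j i)))
    (ETerm.var (Sum.inl b))

/-- closed formulas -/
def chi (a b : AB L M J) : CFormula L (AK L A J) (AB L M J) 0 0 :=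
  CFormula.dB (ETerm.var (Sum.inl a)) (ETerm.var (Sum.inl b))

lemma psi_val (D : Dat L M A n) (j : ℕ) (b : AB L M J) (N' : PreStr L) (v : AK L A J → N'.K)
    (w : AB L M J → N'.B) (x : Fin n → N'.K) (y : Fin 0 → N'.B) :
    (((psi D j b).val N' v w x y : I) : ℝ) =
      dist (N'.ev (D.m j) (D.φ j)
        (fun i => Sum.elim (fun a : A => v ⟨aN L J (a : M), a, rfl⟩) x (D.g j i))) (w b) := by
  have e : (fun i => Sum.elim v x
      (Sum.map (fun a : A => (⟨aN L J (a : M), a, rfl⟩ : AK L A J)) id (D.g j i))) =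
      fun i => Sum.elim (fun a : A => v ⟨aN L J (a : M), a, rfl⟩) x (D.g j i) := by
    funext i
    cases D.g j i <;> rfl
  rw [← e]
  rfl

lemma dist_eN {i j : J} (hij : i ≠ j) : dist (eN L M i) (eN L M j) = 1 / 2 := by
  refine (dist_qB _ _ _).trans ?_
  rw [← coins_ne hij]
  refine (RV.dist_def _ _).trans ?_
  congr 1
  ext ω
  simp only [Set.mem_ofPred_eq, ne_eq]
  have h2 : ∀ i : J, ((evt L M i : RV (coins J) Prop).toFun ω) = (ω i = true) := fun i => rfl
  rw [h2, h2]
  cases ω i <;> cases ω j <;> simp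

/-- The approximations. -/
def xs (D : Dat L M A n) (s : ℕ → J) (k : ℕ) (r : Fin n) : (PJ L M J).K :=
  (RV.comp (fun j : Fin k => coord (s j)) (fun c => D.F k c r) : RV (coins J) M)

lemma val_xs (D : Dat L M A n) (s : ℕ → J) {j k : ℕ} (hj : j < k) :
    dist ((NJ L M J).ev (D.m j) (D.φ j)
      (fun i => Sum.elim (fun a : A => aN L J (a : M))
        (fun r => qK (PJ L M J) (xs D s k r)) (D.g j i))) (eN L M (s j)) = 0 := by
  have e : (fun i => Sum.elim (fun a : A => aN L J (a : M))
        (fun r => qK (PJ L M J) (xs D s k r)) (D.g j i)) =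
      fun i => qK (PJ L M J) (Sum.elim (fun a : A => cst L J (a : M)) (xs D s k) (D.g j i)) := by
    funext i
    cases D.g j i <;> rfl
  rw [e]
  have h1 : (NJ L M J).ev (D.m j) (D.φ j)
      (fun i => qK (PJ L M J) (Sum.elim (fun a : A => cst L J (a : M)) (xs D s k) (D.g j i))) =
      qB (PJ L M J) ((PJ L M J).ev (D.m j) (D.φ j)
        (fun i => Sum.elim (fun a : A => cst L J (a : M)) (xs D s k) (D.g j i))) :=
    quot_ev (PJ L M J) (D.m j) (D.φ j) _
  rw [h1]
  refine (dist_qB _ _ _).trans ?_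
  refine (RV.dist_def _ _).trans ?_
  have h3 : {ω : J → Bool | ((PJ L M J).ev (D.m j) (D.φ j)
        (fun i => Sum.elim (fun a : A => cst L J (a : M)) (xs D s k) (D.g j i)) :
          RV (coins J) Prop).toFun ω ≠ (evt L M (s j) : RV (coins J) Prop).toFun ω} = ∅ := by
    ext ω
    simp only [Set.mem_ofPred_eq, Set.mem_empty_iff_false, iff_false, not_not]
    have e1 : ((PJ L M J).ev (D.m j) (D.φ j)
        (fun i => Sum.elim (fun a : A => cst L J (a : M)) (xs D s k) (D.g j i)) :
          RV (coins J) Prop).toFun ω = (ω (s j) = true) := by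
      refine propext (Iff.trans ?_ (D.hF k (fun j => ω (s j)) ⟨j, hj⟩))
      have e2 : (fun i => ((Sum.elim (fun a : A => cst L J (a : M)) (xs D s k) (D.g j i) :
          RV (coins J) M)).toFun ω) =
          fun i => Sum.elim (fun a : A => (a : M)) (D.F k (fun j => ω (s j))) (D.g j i) := by
        funext i
        cases D.g j i <;> rfl
      rw [← e2]
      exact Iff.rfl
    rw [e1]
    rfl
  rw [h3]
  simp

lemma nonemptyNJ [Nonempty M] : Nonempty (NJ L M J).K :=
  (isStr_typical (L := L) M (coins J)).nonemptyK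

/-- the point realizing the type `p_s`, in the ultrapower -/
def Xs (D : Dat L M A n) (s : ℕ → J) (r : Fin n) : (ultra (NJ L M J)).K :=
  (fun k => qK (PJ L M J) (xs D s k r) : Seq (NJ L M J).K)

variable [Nonempty M]

/-- The types `p_s`. -/
def ps (D : Dat L M A n) (s : ℕ → J) : CFormula L (AK L A J) (AB L M J) n 0 → I :=
  (ultraExt (NJ L M J) nonemptyNJ (AK L A J) (AB L M J)).tp
    (fun r => qK (ultra (NJ L M J)) (Xs D s r)) ![]

lemma ps_mem (D : Dat L M A n) (s : ℕ → J) :
    ps D s ∈ Types (NJ L M J) (AK L A J) (AB L M J) n 0 := ⟨_, _, _, rfl⟩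

lemma ps_psi (D : Dat L M A n) (s : ℕ → J) (j : ℕ) :
    ps D s (psi D j ⟨eN L M (s j), s j, rfl⟩) = 0 := by
  have h1 := val_quot (ultra (NJ L M J))
      (fun a : AK L A J => (fun _ => (a : (NJ L M J).K) : Seq (NJ L M J).K))
      (fun b : AB L M J => (fun _ => (b : (NJ L M J).B) : Seq (NJ L M J).B))
      (psi D j ⟨eN L M (s j), s j, rfl⟩) (Xs D s) ![]
  have e4 : (fun i => qB (ultra (NJ L M J)) ((![] : Fin 0 → (ultra (NJ L M J)).B) i)) =
      (![] : Fin 0 → (ultra (NJ L M J)).quot.B) := Subsingleton.elim _ _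
  rw [e4] at h1
  have h2 := los (NJ L M J) nonemptyNJ
    (fun a : AK L A J => (fun _ => (a : (NJ L M J).K) : Seq (NJ L M J).K))
    (fun b : AB L M J => (fun _ => (b : (NJ L M J).B) : Seq (NJ L M J).B))
    (psi D j ⟨eN L M (s j), s j, rfl⟩) (Xs D s) ![]
  refine h1.trans ?_
  refine tendsto_nhds_unique h2 ?_
  have h3 : ∀ᶠ k in (U : Filter ℕ), j < k := by
    have h1 : (U : Filter ℕ) ≤ atTop := by
      rw [← Nat.cofinite_eq_atTop]; exact hyperfilter_le_cofinite
    exact h1 (eventually_gt_atTop j)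
  refine Tendsto.congr' ?_ tendsto_const_nhds
  filter_upwards [h3] with k hk
  apply Subtype.ext
  refine Eq.trans ?_ (psi_val D j _ _ _ _ _ _).symm
  exact (val_xs D s hk).symm

omit [Nonempty M] in
lemma lip (D : Dat L M A n) (N' : PreStr L) (c : A → N'.K) (a b : Fin n → N'.K) (j : ℕ) :
    dist (N'.ev (D.m j) (D.φ j) (fun i => Sum.elim c a (D.g j i)))
      (N'.ev (D.m j) (D.φ j) (fun i => Sum.elim c b (D.g j i))) ≤ n * dist a b := by
  classical
  refine (N'.ev_lip _ _ _ _).trans ?_
  have h1 : ∀ i, dist (Sum.elim c a (D.g j i)) (Sum.elim c b (D.g j i)) =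
      ∑ r : Fin n, if D.g j i = Sum.inr r then dist (a r) (b r) else 0 := by
    intro i
    cases hg : D.g j i with
    | inl x => simp
    | inr x => simp
  simp only [h1]
  rw [Finset.sum_comm]
  have h2 : ∀ r : Fin n, (∑ i, if D.g j i = Sum.inr r then dist (a r) (b r) else 0) ≤
      dist a b := by
    intro r
    rw [← Finset.sum_filter, Finset.sum_const, nsmul_eq_mul]
    have h3 : (Finset.univ.filter fun i => D.g j i = Sum.inr r).card ≤ 1 := by
      rw [Finset.card_le_one]
      intro x hx y hy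
      rw [Finset.mem_filter] at hx hy
      exact D.inj j (hx.2.trans hy.2.symm)
    have h4 : ((Finset.univ.filter fun i => D.g j i = Sum.inr r).card : ℝ) ≤ 1 := by
      exact_mod_cast h3
    calc _ ≤ 1 * dist (a r) (b r) := mul_le_mul_of_nonneg_right h4 dist_nonneg
      _ ≤ dist a b := by rw [one_mul]; exact dist_le_pi_dist a b r
  calc _ ≤ ∑ _r : Fin n, dist a b := Finset.sum_le_sum fun r _ => h2 r
    _ = n * dist a b := by simp

lemma near_psi (D : Dat L M A n) {s : ℕ → J}
    {q : CFormula L (AK L A J) (AB L M J) n 0 → I}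
    (h : typeDist (NJ L M J) (AK L A J) (AB L M J) (ps D s) q <
      ENNReal.ofReal (1 / (4 * (n + 1)))) (j : ℕ) :
    (q (psi D j ⟨eN L M (s j), s j, rfl⟩) : ℝ) < 1 / 4 := by
  unfold typeDist at h
  simp only [iInf_lt_iff] at h
  obtain ⟨E, a, e, b, f, h1, h2, h3⟩ := h
  have h4 : edist a b < ENNReal.ofReal (1 / (4 * (n + 1))) := (le_max_left _ _).trans_lt h3
  have hn : (0 : ℝ) < 1 / (4 * (n + 1)) := by positivity
  have h5 : dist a b < 1 / (4 * (n + 1)) := by
    rw [edist_dist] at h4
    exact (ENNReal.ofReal_lt_ofReal_iff hn).mp h4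
  have h6 : (n : ℝ) * dist a b < 1 / 4 := by
    have h7 : (n : ℝ) * dist a b ≤ (n + 1) * dist a b :=
      mul_le_mul_of_nonneg_right (by linarith) dist_nonneg
    have h8 : ((n : ℝ) + 1) * dist a b < (n + 1) * (1 / (4 * (n + 1))) :=
      mul_lt_mul_of_pos_left h5 (by positivity)
    have h9 : ((n : ℝ) + 1) * (1 / (4 * (n + 1))) = 1 / 4 := by
      field_simp
    linarith
  have h7 := ps_psi D s j
  rw [← h1] at h7
  rw [← h2]
  have h8 : dist (E.N'.ev (D.m j) (D.φ j)
      (fun i => Sum.elim (fun x : A => E.iK ⟨aN L J (x : M), x, rfl⟩) a (D.g j i)))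
      (E.iB ⟨eN L M (s j), s j, rfl⟩) = 0 :=
    (psi_val D j _ E.N' E.iK E.iB a e).symm.trans (congrArg (fun x : I => (x : ℝ)) h7)
  have h9 := lip D E.N' (fun x : A => E.iK ⟨aN L J (x : M), x, rfl⟩) a b j
  refine (psi_val D j _ E.N' E.iK E.iB b f).trans_lt ?_
  have h10 := dist_triangle_left
    (E.N'.ev (D.m j) (D.φ j)
      (fun i => Sum.elim (fun x : A => E.iK ⟨aN L J (x : M), x, rfl⟩) b (D.g j i)))
    (E.iB ⟨eN L M (s j), s j, rfl⟩)
    (E.N'.ev (D.m j) (D.φ j)
      (fun i => Sum.elim (fun x : A => E.iK ⟨aN L J (x : M), x, rfl⟩) a (D.g j i)))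
  linarith

lemma ps_sep (D : Dat L M A n) {s t : ℕ → J}
    {q : CFormula L (AK L A J) (AB L M J) n 0 → I}
    (hq : q ∈ Types (NJ L M J) (AK L A J) (AB L M J) n 0)
    (hs : typeDist (NJ L M J) (AK L A J) (AB L M J) (ps D s) q <
      ENNReal.ofReal (1 / (4 * (n + 1))))
    (ht : typeDist (NJ L M J) (AK L A J) (AB L M J) (ps D t) q <
      ENNReal.ofReal (1 / (4 * (n + 1)))) : s = t := by
  by_contra hne
  obtain ⟨j, hj⟩ := Function.ne_iff.mp hne
  obtain ⟨E, b, f, rfl⟩ := hq
  have h1 := near_psi D hs j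
  have h2 := near_psi D ht j
  have h3 := (psi_val D j _ E.N' E.iK E.iB b f).symm.trans_lt h1
  have h4 := (psi_val D j _ E.N' E.iK E.iB b f).symm.trans_lt h2
  have h5 := E.elem (chi ⟨eN L M (s j), s j, rfl⟩ ⟨eN L M (t j), t j, rfl⟩)
  have h6 : dist (E.iB ⟨eN L M (s j), s j, rfl⟩) (E.iB ⟨eN L M (t j), t j, rfl⟩) =
      dist (eN L M (s j)) (eN L M (t j)) :=
    congrArg (fun x : I => (x : ℝ)) h5
  rw [dist_eN hj] at h6
  have h7 := dist_triangle_left (E.iB ⟨eN L M (s j), s j, rfl⟩)
    (E.iB ⟨eN L M (t j), t j, rfl⟩)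
    (E.N'.ev (D.m j) (D.φ j)
      (fun i => Sum.elim (fun x : A => E.iK ⟨aN L J (x : M), x, rfl⟩) b (D.g j i)))
  linarith

end

/-- The randomization is not `lam`-stable if `lam < lam ^ ℵ₀`. -/
theorem not_stable {L : FirstOrder.Language.{0, 0}} {M : Type} [L.Structure M] [Nonempty M]
    {A : Set M} {n : ℕ} (hA : #A ≤ ℵ₀) (D : Dat L M A n) {T : L.Theory} (hT : M ⊨ T)
    {lam : Cardinal.{0}} (h0 : ℵ₀ ≤ lam) (h1 : lam < lam ^ ℵ₀) : ¬ CStable (TR T) lam := by
  intro hst
  induction lam using Cardinal.inductionOn with | _ J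
  have hJ : Infinite J := Cardinal.aleph0_le_mk_iff.mp h0
  have hmodel : (NJ L M J).IsModel (TR T) := isModel_typical M hT (coins J) coins_atomless
  have hd1 : HasDens (AK L A J) #J :=
    ⟨AK L A J, subset_rfl, mk_range_le.trans (hA.trans h0), subset_closure⟩
  have hd2 : HasDens (AB L M J) #J := ⟨AB L M J, subset_rfl, mk_range_le, subset_closure⟩
  obtain ⟨Q, hQ, hQc, hQd⟩ := hst (NJ L M J) hmodel (AK L A J) (AB L M J) hd1 hd2 n 0
  have hex : ∀ s : ℕ → J, ∃ q ∈ Q, typeDist (NJ L M J) (AK L A J) (AB L M J) (ps D s) q <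
      ENNReal.ofReal (1 / (4 * (n + 1))) :=
    fun s => hQd (ps D s) (ps_mem D s) _ (ENNReal.ofReal_pos.2 (by positivity))
  choose q hqD hq using hex
  have hinj : Function.Injective (fun s : ℕ → J => (⟨q s, hqD s⟩ : Q)) := by
    intro s t hst
    have hst' : q s = q t := congrArg Subtype.val hst
    exact ps_sep D (hQ (hqD s)) (hq s) (hst' ▸ hq t)
  have h2 := mk_le_of_injective hinj
  have h3 : #(ℕ → J) = #J ^ ℵ₀ := by simp
  rw [h3] at h2
  exact absurd (h2.trans hQc) (not_le.mpr h1)

/-- If a theory in a countable language is not `ω`-stable then its randomization is not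
`lam`-stable for any infinite `lam < lam ^ ℵ₀`. -/
theorem omega_stable_of {L : FirstOrder.Language.{0, 0}} (hL : L.card ≤ ℵ₀) {T : L.Theory}
    {lam : Cardinal.{0}} (h0 : ℵ₀ ≤ lam) (h1 : lam < lam ^ ℵ₀) (h : CStable (TR T) lam) :
    FOStable T ℵ₀ := by
  intro M _ _ hM A hA n
  by_contra hc
  have hcount : Countable (L[[A]].Formula (Fin n)) := by
    have h2 : L[[A]].card ≤ ℵ₀ := by
      rw [Language.card_withConstants]
      simpa using Cardinal.add_le_aleph0.2 ⟨hL, hA⟩
    have h3 : #(Σ k, L[[A]].BoundedFormula (Fin n) k) ≤ ℵ₀ := by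
      refine Language.BoundedFormula.card_le.trans ?_
      refine max_le le_rfl ?_
      simpa using h2
    have h4 : Countable (Σ k, L[[A]].BoundedFormula (Fin n) k) := mk_le_aleph0_iff.1 h3
    have h5 : Function.Injective (fun φ : L[[A]].Formula (Fin n) =>
        (⟨0, φ⟩ : Σ k, L[[A]].BoundedFormula (Fin n) k)) := fun a b hab => by
      simpa using hab
    exact h5.countable
  have hunc : ¬ (Set.univ : Set ((L[[A]].completeTheory M).CompleteType (Fin n))).Countable := by
    intro h2
    exact hc (mk_le_aleph0_iff.2 (Set.countable_univ_iff.1 h2))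
  obtain ⟨θ, hθ⟩ := independent M hunc
  choose m φ g hg hφ using fun j => unfold_formula M A (θ j)
  have hF : ∀ (k : ℕ) (c : Fin k → Bool), ∃ v : Fin n → M, ∀ j : Fin k,
      ((φ j).Realize (fun i => Sum.elim (fun a : A => (a : M)) v (g j i)) ↔ c j = true) := by
    intro k c
    obtain ⟨v, hv⟩ := hθ (fun j => if h : j < k then c ⟨j, h⟩ else false) k
    refine ⟨v, fun j => ?_⟩
    have h2 := hv j j.2
    simp only [Fin.is_lt, dif_pos, Fin.eta] at h2
    exact (hφ j v).symm.trans h2
  choose F hF using hF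
  exact not_stable hA ⟨m, φ, g, hg, F, hF⟩ hM h0 h1 h

end Pool.Agent.Y9.RZ
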