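import Pool.Agent.H568R2.Rand.FO2
import Pool.Agent.Y9.RZ.Sep

/-!
# Randomizations of theories which are not `ω`-stable
-/

open FirstOrder Cardinal MeasureTheory Filter Topology
open scoped unitInterval FirstOrder

noncomputable section

set_option autoImplicit false

namespace Pool.Agent.Y9.RZ

open Pool.Agent.H568R2.Rand hiding NJ PJ xs Xs ps psi chi fpar fparN AKJ ps_mem ps_psi near_psi
  ps_sep nonemptyNJ val_xs

/-- There are independent formulas with constants if the theory is not `ω`-stable. -/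
theorem exists_dat {L : FirstOrder.Language.{0, 0}} (hL : L.card ≤ ℵ₀) {T : L.Theory}
    (h : ¬ FOStable T ℵ₀) : ∃ (M : Type) (_ : L.Structure M) (_ : Nonempty M) (A : Set M) (n : ℕ)
      (_ : Dat L M A n), M ⊨ T ∧ #A ≤ ℵ₀ := by
  unfold FOStable at h
  push Not at h
  obtain ⟨M, iM, iN, hM, A, hA, n, hc⟩ := h
  have hcount : Countable (L[[A]].Formula (Fin n)) := by
    have h2 : L[[A]].card ≤ ℵ₀ := by
      rw [Language.card_withConstants]
      simpa using Cardinal.add_le_aleph0.2 ⟨hL, hA⟩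
    have h3 : #(Σ k, L[[A]].BoundedFormula (Fin n) k) ≤ ℵ₀ := by
      refine Language.BoundedFormula.card_le.trans ?_
      refine max_le le_rfl ?_
      simpa using h2
    have h4 : Countable (Σ k, L[[A]].BoundedFormula (Fin n) k) := mk_le_aleph0_iff.1 h3
    have h5 : Function.Injective (fun φ : L[[A]].Formula (Fin n) =>
        (⟨0, φ⟩ : Σ k, L[[A]].BoundedFormula (Fin n) k)) := fun a b hab => by
      simpa using hab
    exact h5.countable
  have hunc : ¬ (Set.univ : Set ((L[[A]].completeTheory M).CompleteType (Fin n))).Countable := by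
    intro h2
    exact (not_le.2 hc) (mk_le_aleph0_iff.2 (Set.countable_univ_iff.1 h2))
  obtain ⟨θ, hθ⟩ := independent M hunc
  choose m φ g hg hφ using fun j => unfold_formula M A (θ j)
  have hF : ∀ (k : ℕ) (c : Fin k → Bool), ∃ v : Fin n → M, ∀ j : Fin k,
      ((φ j).Realize (fun i => Sum.elim (fun a : A => (a : M)) v (g j i)) ↔ c j = true) := by
    intro k c
    obtain ⟨v, hv⟩ := hθ (fun j => if h : j < k then c ⟨j, h⟩ else false) k
    refine ⟨v, fun j => ?_⟩
    have h2 := hv j j.2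
    simp only [Fin.is_lt, dif_pos, Fin.eta] at h2
    exact (hφ j v).symm.trans h2
  choose F hF using hF
  exact ⟨M, iM, iN, A, n, ⟨m, φ, g, hg, F, hF⟩, hM, hA⟩

lemma self_dist {L : FirstOrder.Language.{0, 0}} {N : PreStr L} {C : Set N.K} {E' : Set N.B}
    {n m : ℕ} (E : Ext N C E') (a : Fin n → E.N'.K) (e : Fin m → E.N'.B) :
    typeDist N C E' (E.tp a e) (E.tp a e) ≤ 0 := by
  unfold typeDist
  refine (iInf_le _ E).trans ?_
  refine (iInf_le _ a).trans ?_
  refine (iInf_le _ e).trans ?_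
  refine (iInf_le _ a).trans ?_
  refine (iInf_le _ e).trans ?_
  refine (iInf_le _ rfl).trans ?_
  refine (iInf_le _ rfl).trans ?_
  rw [edist_self, edist_self]
  simp

/-- Many separated types. -/
theorem many_types {L : FirstOrder.Language.{0, 0}} (hL : L.card ≤ ℵ₀) {T : L.Theory}
    (h : ¬ FOStable T ℵ₀) {lam : Cardinal.{0}} (h0 : ℵ₀ ≤ lam) :
    ∃ N : PreStr L, N.IsModel (TR T) ∧ ∃ (C : Set N.K) (E : Set N.B), #C ≤ ℵ₀ ∧ #E ≤ lam ∧
      ∃ (n : ℕ) (ε : ENNReal), 0 < ε ∧ ∃ P ⊆ Types N C E n 0, #P = lam ^ ℵ₀ ∧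
        ∀ p ∈ P, ∀ p' ∈ P, p ≠ p' → ∀ q ∈ Types N C E n 0,
          typeDist N C E p q < ε → ¬ typeDist N C E p' q < ε := by
  induction lam using Cardinal.inductionOn with | _ J
  have hJ : Infinite J := Cardinal.aleph0_le_mk_iff.mp h0
  obtain ⟨M, iM, iN, A, n, D, hM, hA⟩ := exists_dat hL h
  refine ⟨NJ L M J, isModel_typical M hM (coins J) coins_atomless, AK L A J, AB L M J,
    mk_range_le.trans hA, mk_range_le, n, ENNReal.ofReal (1 / (4 * (n + 1))),
    ENNReal.ofReal_pos.2 (by positivity), Set.range (fun s : ℕ → J => ps D s), ?_, ?_, ?_⟩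
  · rintro _ ⟨s, rfl⟩
    exact ps_mem D s
  · have hself : ∀ s : ℕ → J, typeDist (NJ L M J) (AK L A J) (AB L M J) (ps D s) (ps D s) <
        ENNReal.ofReal (1 / (4 * (n + 1))) := by
      intro s
      exact lt_of_le_of_lt (self_dist _ _ _) (ENNReal.ofReal_pos.2 (by positivity))
    have hinj : Function.Injective (fun s : ℕ → J => ps D s) := by
      intro s t hst
      refine ps_sep D (ps_mem D s) (hself s) ?_
      have h2 : ps D s = ps D t := hst
      have h3 := hself s
      rw [h2] at h3 ⊢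
      exact h3
    rw [mk_range_eq _ hinj]
    simp
  · rintro _ ⟨s, rfl⟩ _ ⟨t, rfl⟩ hne q hq hs ht
    exact hne (congrArg (ps D) (ps_sep D hq hs ht))

/-- There are arbitrarily large cardinals with `lam < lam ^ ℵ₀`. -/
lemma large (κ : Cardinal.{0}) : ∃ lam : Cardinal.{0}, κ ≤ lam ∧ ℵ₀ ≤ lam ∧ lam < lam ^ ℵ₀ := by
  let f : ℕ → Cardinal.{0} := fun n => (fun x => (2 : Cardinal.{0}) ^ x)^[n] (max κ ℵ₀)
  have hf0 : f 0 = max κ ℵ₀ := rfl
  have hfs : ∀ n, f (n + 1) = 2 ^ f n := fun n => Function.iterate_succ_apply' _ _ _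
  have hlt : ∀ n, f n < f (n + 1) := fun n => by rw [hfs]; exact cantor _
  have hbdd : BddAbove (Set.range f) := bddAbove_of_small
  have hle : ∀ n, f n ≤ Cardinal.sum f := fun n => le_sum f n
  refine ⟨Cardinal.sum f, (le_max_left _ _).trans (hle 0), (le_max_right _ _).trans (hle 0), ?_⟩
  calc Cardinal.sum f < Cardinal.prod fun n => f (n + 1) := sum_lt_prod _ _ hlt
    _ ≤ Cardinal.prod fun _ : ℕ => Cardinal.sum f := prod_le_prod _ _ fun n => hle (n + 1)
    _ = Cardinal.sum f ^ ℵ₀ := by simp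

/-- The theory of countably many independent predicates is not `ω`-stable. -/
lemma not_omega_T0 : ¬ FOStable T0 ℵ₀ := by
  intro h
  have h1 := h M0 M0_model (∅ : Set M0) (by simp) 1
  let T' : (LP[[(∅ : Set M0)]]).Theory := (LP[[(∅ : Set M0)]]).completeTheory M0
  let G : (ℕ → Bool) → T'.CompleteType (Fin 1) := fun x => T'.typeOf (fun _ => ((x, 0) : M0))
  have hG : Function.Injective G := by
    intro x y hxy
    funext j
    let θ : (LP[[(∅ : Set M0)]]).Formula (Fin 1) :=
      (LP.lhomWithConstants (∅ : Set M0)).onFormula (Pf j)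
    have key : ∀ z : ℕ → Bool, (Language.Formula.equivSentence θ ∈ G z) ↔ z j = true := by
      intro z
      refine (Language.Theory.CompleteType.formula_mem_typeOf).trans ?_
      refine (Language.LHom.realize_onFormula _ _).trans ?_
      exact realize_Pf j _
    have h2 := key x
    rw [hxy] at h2
    exact Bool.eq_iff_iff.2 (h2.symm.trans (key y))
  have h3 := (mk_le_of_injective hG).trans h1
  have h4 : #(ℕ → Bool) = 2 ^ ℵ₀ := by simp
  rw [h4] at h3
  exact absurd h3 (not_le.2 (cantor ℵ₀))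

/-- The example. -/
theorem example_T0 : ∃ (L : FirstOrder.Language.{0, 0}) (T : L.Theory), L.card ≤ ℵ₀ ∧
    T.IsComplete ∧ ¬ FOStable T ℵ₀ ∧ ∀ lam : Cardinal.{0}, 2 ^ ℵ₀ ≤ lam → FOStable T lam := by
  refine ⟨LP, T0, ?_, T0_complete, not_omega_T0, fun lam h => FOStable_T0 h⟩
  have h1 : Countable (Σ l, LP.Functions l) := by
    have : IsEmpty (Σ l, LP.Functions l) := ⟨fun x => Empty.elim x.2⟩
    infer_instance
  have h2 : Countable (Σ l, LP.Relations l) := by
    have : Function.Surjective (fun j : ℕ => (⟨1, PRel.P j⟩ : Σ l, LP.Relations l)) := by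
      rintro ⟨l, r⟩
      cases r with
      | P j => exact ⟨j, rfl⟩
    exact this.countable
  have h3 : Countable LP.Symbols := by
    unfold FirstOrder.Language.Symbols
    infer_instance
  exact mk_le_aleph0_iff.mpr h3

end Pool.Agent.Y9.RZ
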